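import Mathlib

/-!
Substructure-closed classes of finite structures, their Specker functions, MC-finiteness.
-/

set_option autoImplicit false

open CategoryTheory FirstOrder

namespace Pool.Agent.H76.Specker

/-- `K` is a class of finite `L`-structures that is closed under isomorphism and under passing
to (induced) substructures. -/
def SubstructureClosed (L : FirstOrder.Language.{0, 0}) (K : Set (Bundled.{0} L.Structure)) :
    Prop :=
  (∀ M ∈ K, Finite M) ∧
  (∀ M ∈ K, ∀ N : Bundled.{0} L.Structure, Nonempty (M ≃[L] N) → N ∈ K) ∧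
  (∀ M ∈ K, ∀ S : L.Substructure M, (⟨S, inferInstance⟩ : Bundled.{0} L.Structure) ∈ K)

/-- The Specker function of `K`: the number of `L`-structures with universe `Fin n` that
belong to `K` (labelled structures, not counted up to isomorphism). -/
noncomputable def specker (L : FirstOrder.Language.{0, 0}) (K : Set (Bundled.{0} L.Structure))
    (n : ℕ) : ℕ :=
  Nat.card {A : L.Structure (Fin n) // (⟨Fin n, A⟩ : Bundled.{0} L.Structure) ∈ K}

/-- MC-finiteness of an integer sequence: for every modulus `m ≥ 1` there is a linear recurrence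
with constant integer coefficients that holds modulo `m` from some index on. -/
def MCFinite (s : ℕ → ℤ) : Prop :=
  ∀ m : ℕ, 1 ≤ m → ∃ r p : ℕ, 1 ≤ r ∧ 1 ≤ p ∧ ∃ α : ℕ → ℤ,
    ∀ n ≥ r, s (n + p + 1) ≡ ∑ i ∈ Finset.range (p + 1), α i * s (n + i) [ZMOD m]

end Pool.Agent.H76.Specker
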