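import Mathlib
import Pool.Agent.H76.Specker.Defs

/-!
Modular recurrences and ultimate periodicity, and counting of maps with prescribed fibres.
-/

set_option autoImplicit false

open Finset

namespace Pool.Agent.H76.Specker

/-- Orbits of self-maps of finite types are ultimately periodic. -/
lemma orbit_periodic {α : Type*} [Finite α] (T : α → α) (x : α) :
    ∃ r p : ℕ, 0 < p ∧ ∀ n ≥ r, T^[n + p] x = T^[n] x := by
  obtain ⟨a, b, hab, h⟩ := Finite.exists_ne_map_eq_of_infinite (fun n : ℕ => T^[n] x)
  have key : ∀ a b : ℕ, a < b → T^[a] x = T^[b] x →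
      ∃ r p : ℕ, 0 < p ∧ ∀ n ≥ r, T^[n + p] x = T^[n] x := by
    intro a b hab h
    refine ⟨a, b - a, by omega, fun n hn => ?_⟩
    obtain ⟨c, rfl⟩ := Nat.exists_eq_add_of_le hn
    have h1 : a + c + (b - a) = c + b := by omega
    have h2 : a + c = c + a := by omega
    rw [h1, h2, Function.iterate_add_apply, Function.iterate_add_apply, h]
  rcases Nat.lt_or_gt_of_ne hab with h1 | h1
  · exact key a b h1 h
  · exact key b a h1 h.symm

lemma orbit_periodic' {α : Type*} [Finite α] (u : ℕ → α) (r₀ : ℕ)
    (T : α → α) (hT : ∀ n ≥ r₀, u (n + 1) = T (u n)) :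
    ∃ r p : ℕ, 0 < p ∧ ∀ n ≥ r, u (n + p) = u n := by
  have h1 : ∀ j, u (r₀ + j) = T^[j] (u r₀) := by
    intro j
    induction j with
    | zero => rfl
    | succ j ih =>
      rw [Function.iterate_succ_apply', ← ih, ← hT (r₀ + j) (by omega)]
      rfl
  obtain ⟨r, p, hp, h2⟩ := orbit_periodic T (u r₀)
  refine ⟨r₀ + r, p, hp, fun n hn => ?_⟩
  obtain ⟨c, rfl⟩ := Nat.exists_eq_add_of_le hn
  have e1 : r₀ + r + c + p = r₀ + (r + c + p) := by omega
  have e2 : r₀ + r + c = r₀ + (r + c) := by omega
  rw [e1, e2, h1, h1]
  exact h2 (r + c) (by omega)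

lemma MCFinite.periodic {s : ℕ → ℤ} (hs : MCFinite s) (m : ℕ) (hm : 1 ≤ m) :
    ∃ r p : ℕ, 0 < p ∧ ∀ n ≥ r, ((s (n + p) : ℤ) : ZMod m) = ((s n : ℤ) : ZMod m) := by
  have : NeZero m := ⟨by omega⟩
  obtain ⟨r₀, p, -, -, α, h⟩ := hs m hm
  obtain ⟨r, q, hq, h2⟩ := orbit_periodic' (α := Fin (p + 1) → ZMod m)
      (fun n i => ((s (n + i.1) : ℤ) : ZMod m)) r₀
      (fun v i => if h : i.1 + 1 < p + 1 then v ⟨i.1 + 1, h⟩ else
        ∑ j : Fin (p + 1), (α j : ZMod m) * v j) (by
        intro n hn
        funext i
        by_cases hi : i.1 + 1 < p + 1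
        · simp only [dif_pos hi]
          congr 2
          omega
        · simp only [dif_neg hi]
          have hi' : i.1 = p := by omega
          have h3 := (ZMod.intCast_eq_intCast_iff _ _ _).2 (h n hn)
          have e : n + 1 + i.1 = n + p + 1 := by omega
          rw [e, h3]
          push_cast
          rw [Finset.sum_range])
  refine ⟨r, q, hq, fun n hn => ?_⟩
  have := congrFun (h2 n hn) 0
  simpa using this

lemma mcFinite_of_periodic {s : ℕ → ℤ}
    (h : ∀ m : ℕ, 1 ≤ m → ∃ r p : ℕ, 0 < p ∧ ∀ n ≥ r,
      ((s (n + p) : ℤ) : ZMod m) = ((s n : ℤ) : ZMod m)) : MCFinite s := by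
  intro m hm
  obtain ⟨r, p, hp, h1⟩ := h m hm
  refine ⟨max r 1, 2 * p - 1, le_max_right _ _, by omega,
    fun i => if i = 0 then 1 else 0, fun n hn => ?_⟩
  have e : n + (2 * p - 1) + 1 = n + p + p := by omega
  have h2 : ((s (n + p + p) : ℤ) : ZMod m) = ((s n : ℤ) : ZMod m) := by
    rw [h1 (n + p) (by have := le_of_max_le_left hn; omega), h1 n (le_of_max_le_left hn)]
  rw [e]
  have h3 : ∑ i ∈ Finset.range (2 * p - 1 + 1), (if i = 0 then (1 : ℤ) else 0) * s (n + i)
      = s n := by
    rw [Finset.sum_eq_single 0]
    · simp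
    · intro b _ hb; simp [hb]
    · intro h; simp at h
  rw [h3]
  exact (ZMod.intCast_eq_intCast_iff _ _ _).1 h2

/-- There are only countably many ultimately periodic sequences in a finite type. -/
lemma countable_periodic {α : Type} [Finite α] :
    {u : ℕ → α | ∃ r p : ℕ, 0 < p ∧ ∀ n ≥ r, u (n + p) = u n}.Countable := by
  have h : {u : ℕ → α | ∃ r p : ℕ, 0 < p ∧ ∀ n ≥ r, u (n + p) = u n} ⊆
      ⋃ r : ℕ, ⋃ p : ℕ, {u : ℕ → α | 0 < p ∧ ∀ n ≥ r, u (n + p) = u n} := by
    rintro u ⟨r, p, h⟩
    exact Set.mem_iUnion.2 ⟨r, Set.mem_iUnion.2 ⟨p, h⟩⟩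
  refine Set.Countable.mono h (Set.countable_iUnion fun r => Set.countable_iUnion fun p => ?_)
  -- such a sequence is determined by its first `r + p` terms
  have hinj : Set.InjOn (fun (u : ℕ → α) (i : Fin (r + p)) => u i.1)
      {u : ℕ → α | 0 < p ∧ ∀ n ≥ r, u (n + p) = u n} := by
    rintro u ⟨hp, hu⟩ v ⟨-, hv⟩ huv
    funext n
    induction n using Nat.strong_induction_on with
    | _ n ih =>
      by_cases hn : n < r + p
      · exact congrFun huv ⟨n, hn⟩
      · have e : n = (n - p) + p := by omega
        rw [e, hu _ (by omega), hv _ (by omega)]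
        exact ih _ (by omega)
  exact Set.MapsTo.countable_of_injOn (Set.mapsTo_univ _ _) hinj (Set.to_countable _)

/-- Binomial coefficients `C(2^k - 1, j)` are odd. -/
lemma odd_choose_two_pow_sub_one (k j : ℕ) (hj : j ≤ 2 ^ k - 1) : Odd ((2 ^ k - 1).choose j) := by
  induction j with
  | zero => simp
  | succ j ih =>
    have h1 := ih (by omega)
    have hpos : 0 < 2 ^ k := by positivity
    have h2 : (2 ^ k).choose (j + 1) = (2 ^ k - 1).choose j + (2 ^ k - 1).choose (j + 1) := by
      conv_lhs => rw [← Nat.sub_add_cancel hpos]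
      exact Nat.choose_succ_succ _ _
    have h3 : 2 ∣ (2 ^ k).choose (j + 1) :=
      Nat.prime_two.dvd_choose_pow (by omega) (by omega)
    rw [h2] at h3
    rw [Nat.odd_iff] at h1 ⊢
    omega

/-- The number of maps to `Fin t` whose fibres have sizes `1, 2, 4, …` is odd. -/
lemma odd_card_fibres (t : ℕ) : ∀ (β : Type) [Fintype β] [DecidableEq β],
    Fintype.card β = 2 ^ t - 1 →
    Odd (Fintype.card {f : β → Fin t // ∀ i, (univ.filter fun x => f x = i).card = 2 ^ i.1}) := by
  induction t with
  | zero =>
    intro β _ _ hβ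
    have : IsEmpty β := Fintype.card_eq_zero_iff.1 (by simpa using hβ)
    have h : Fintype.card
        {f : β → Fin 0 // ∀ i, (univ.filter fun x => f x = i).card = 2 ^ i.1} = 1 := by
      rw [Fintype.card_eq_one_iff]
      exact ⟨⟨fun x => (this.false x).elim, fun i => i.elim0⟩,
        fun f => Subtype.ext (funext fun x => (this.false x).elim)⟩
    rw [h]
    exact odd_one
  | succ t ih =>
    intro β _ _ hβ
    have hpos : 0 < 2 ^ t := by positivity
    -- split according to the last fibre
    let Ω : Finset (β → Fin (t + 1)) :=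
      univ.filter fun f => ∀ i, (univ.filter fun x => f x = i).card = 2 ^ i.1
    have hΩ : Fintype.card
        {f : β → Fin (t + 1) // ∀ i, (univ.filter fun x => f x = i).card = 2 ^ i.1} = Ω.card := by
      rw [Fintype.card_subtype]
    rw [hΩ]
    let last : (β → Fin (t + 1)) → Finset β := fun f => univ.filter fun x => f x = Fin.last t
    let P : Finset (Finset β) := powersetCard (2 ^ t) univ
    have hmaps : ∀ f ∈ Ω, last f ∈ P := by
      intro f hf
      simp only [P, mem_powersetCard_univ, last]
      simpa using (mem_filter.1 hf).2 (Fin.last t)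
    rw [Finset.card_eq_sum_card_fiberwise hmaps, Finset.odd_sum_iff_odd_card_odd]
    have hall : ∀ S ∈ P, Odd (Ω.filter fun f => last f = S).card := by
      intro S hS
      have hScard : S.card = 2 ^ t := mem_powersetCard_univ.1 hS
      have hcardc : Fintype.card {x // x ∉ S} = 2 ^ t - 1 := by
        rw [Fintype.card_subtype_compl (fun x => x ∈ S), hβ, Fintype.card_coe, hScard, pow_succ]
        omega
      have h1 := ih {x // x ∉ S} hcardc
      rw [Fintype.card_subtype] at h1
      have h2 : (Ω.filter fun f => last f = S).card = (univ.filter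
          fun g : {x // x ∉ S} → Fin t => ∀ i, (univ.filter fun x => g x = i).card = 2 ^ i.1).card := by
        symm
        refine Finset.card_bij
          (fun g _ x => if h : x ∈ S then Fin.last t else (g ⟨x, h⟩).castSucc) ?_ ?_ ?_
        · intro g hg
          have hg' := (mem_filter.1 hg).2
          have hlast : (univ.filter fun x => (if h : x ∈ S then Fin.last t else
              (g ⟨x, h⟩).castSucc) = Fin.last t) = S := by
            ext x
            simp only [mem_filter, mem_univ, true_and]
            by_cases h : x ∈ S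
            · simp [h]
            · simp only [h, dif_neg, not_false_iff, iff_false]
              exact (Fin.castSucc_lt_last _).ne
          refine mem_filter.2 ⟨mem_filter.2 ⟨mem_univ _, fun i => ?_⟩, hlast⟩
          refine Fin.lastCases ?_ (fun i => ?_) i
          · rw [hlast, Fin.val_last, hScard]
          · rw [Fin.val_castSucc, ← hg' i]
            symm
            refine Finset.card_bij (fun x _ => x.1) ?_ ?_ ?_
            · intro x hx
              simp only [mem_filter, mem_univ, true_and] at hx ⊢
              rw [dif_neg x.2, hx]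
            · intro x _ y _ h; exact Subtype.ext h
            · intro x hx
              simp only [mem_filter, mem_univ, true_and] at hx
              by_cases h : x ∈ S
              · rw [dif_pos h] at hx
                exact ((Fin.castSucc_lt_last i).ne hx.symm).elim
              · rw [dif_neg h] at hx
                exact ⟨⟨x, h⟩, by simpa using hx, rfl⟩
        · intro g _ g' _ h
          funext x
          have := congrFun h x.1
          simpa [dif_neg x.2] using this
        · intro f hf
          obtain ⟨hf1, hf2⟩ := mem_filter.1 hf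
          have hf3 := (mem_filter.1 hf1).2
          have hmem : ∀ x, x ∈ S ↔ f x = Fin.last t := by
            intro x
            rw [← hf2]
            simp [last]
          refine ⟨fun x => (f x.1).castPred (fun h => x.2 ((hmem x.1).2 h)), ?_, ?_⟩
          · refine mem_filter.2 ⟨mem_univ _, fun i => ?_⟩
            have h := hf3 i.castSucc
            rw [Fin.val_castSucc] at h
            rw [← h]
            refine Finset.card_bij (fun x _ => x.1) ?_ ?_ ?_
            · intro x hx
              simp only [mem_filter, mem_univ, true_and] at hx ⊢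
              rw [← hx, Fin.castSucc_castPred]
            · intro x _ y _ h; exact Subtype.ext h
            · intro x hx
              simp only [mem_filter, mem_univ, true_and] at hx
              refine ⟨⟨x, ?_⟩, ?_, rfl⟩
              · rw [hmem, hx]
                exact (Fin.castSucc_lt_last i).ne
              · simp only [mem_filter, mem_univ, true_and, hx, Fin.castPred_castSucc]
          · funext x
            by_cases h : x ∈ S
            · rw [dif_pos h, (hmem x).1 h]
            · rw [dif_neg h, Fin.castSucc_castPred]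
      rw [h2]; exact h1
    rw [Finset.filter_true_of_mem hall, Finset.card_powersetCard, Finset.card_univ, hβ]
    exact odd_choose_two_pow_sub_one (t + 1) (2 ^ t) (by rw [pow_succ]; omega)

end Pool.Agent.H76.Specker
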