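import Mathlib
import Pool.Agent.H76.Specker.Seq

/-!
Blow-ups of cycles with vertex weights `1, 2, 4, …`: they form an antichain under induced
subgraphs and have an odd number of labelled copies.
-/

set_option autoImplicit false

open Finset

namespace Pool.Agent.H76.Specker

/-- The graph in which vertices of consecutive classes (cyclically) are joined. -/
def blow (t : ℕ) {α : Type} (cls : α → Fin (t + 5)) : SimpleGraph α where
  Adj x y := ((cls x : ℕ) : ZMod (t + 5)) - ((cls y : ℕ) : ZMod (t + 5)) = 1 ∨
    ((cls y : ℕ) : ZMod (t + 5)) - ((cls x : ℕ) : ZMod (t + 5)) = 1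
  symm := ⟨fun _ _ h => h.symm⟩
  loopless := ⟨fun x h => by
    have h1 : (1 : ZMod (t + 5)) ≠ 0 := by
      have : Fact (1 < t + 5) := ⟨by omega⟩
      exact one_ne_zero
    rcases h with h | h <;> exact h1 (by rw [← h, sub_self])⟩

/-- The blow-up of the cycle of length `t + 5` in which vertex `i` has weight `2 ^ i`. -/
def F (t : ℕ) : SimpleGraph (Σ i : Fin (t + 5), Fin (2 ^ i.1)) := blow t Sigma.fst

lemma card_V (t : ℕ) : Fintype.card (Σ i : Fin (t + 5), Fin (2 ^ i.1)) = 2 ^ (t + 5) - 1 := by
  rw [Fintype.card_sigma]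
  simp only [Fintype.card_fin]
  rw [Fin.sum_univ_eq_sum_range (fun i => 2 ^ i)]
  exact Nat.geomSum_eq le_rfl _ |>.trans (by simp)

lemma small_ne_zero (t k : ℕ) (hk : 0 < k) (hk5 : k < 5) : ((k : ℕ) : ZMod (t + 5)) ≠ 0 := by
  intro h
  rw [ZMod.natCast_eq_zero_iff] at h
  have := Nat.le_of_dvd hk h
  omega

/-- An embedding between two of the graphs forces divisibility. -/
lemma dvd_of_embedding {s t : ℕ} (φ : F s ↪g F t) : t + 5 ∣ s + 5 := by
  -- representatives
  let x₀ : Fin (s + 5) → Σ i : Fin (s + 5), Fin (2 ^ i.1) := fun k => ⟨k, ⟨0, by positivity⟩⟩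
  let x : ℕ → Σ i : Fin (s + 5), Fin (2 ^ i.1) := fun n =>
    x₀ ⟨n % (s + 5), Nat.mod_lt _ (by omega)⟩
  let g : ℕ → ZMod (t + 5) := fun n => (((φ (x n)).1 : ℕ) : ZMod (t + 5))
  have hx : ∀ n, (((x n).1 : ℕ) : ZMod (s + 5)) = (n : ZMod (s + 5)) := fun n =>
    ZMod.natCast_mod n (s + 5)
  have hadj : ∀ m n : ℕ, (g m - g n = 1 ∨ g n - g m = 1) ↔
      ((m : ZMod (s + 5)) - n = 1 ∨ (n : ZMod (s + 5)) - m = 1) := by
    intro m n
    have h1 : (F t).Adj (φ (x m)) (φ (x n)) ↔ (F s).Adj (x m) (x n) := φ.map_adj_iff
    simp only [F, blow] at h1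
    rw [hx, hx] at h1
    exact h1
  have h2s : ((2 : ℕ) : ZMod (s + 5)) ≠ 0 := small_ne_zero s 2 (by omega) (by omega)
  have h4s : ((4 : ℕ) : ZMod (s + 5)) ≠ 0 := small_ne_zero s 4 (by omega) (by omega)
  have hsucc : ∀ n, g (n + 1) - g n = 1 ∨ g n - g (n + 1) = 1 := by
    intro n
    rw [hadj]
    left; push_cast; ring
  have hthree : ∀ n, ¬ (g (n + 3) - g n = 1 ∨ g n - g (n + 3) = 1) := by
    intro n h
    rw [hadj] at h
    push_cast at h h2s h4s
    rcases h with h | h
    · apply h2s; linear_combination h
    · apply h4s; linear_combination -h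
  have htwo : ∀ n, g (n + 2) ≠ g n := by
    intro n h
    have h1 := hsucc (n + 2)
    rw [h] at h1
    exact hthree n h1
  -- the direction is constant
  have hdir : (∀ n, g (n + 1) - g n = 1) ∨ (∀ n, g n - g (n + 1) = 1) := by
    rcases hsucc 0 with h0 | h0
    · left
      intro n
      induction n with
      | zero => exact h0
      | succ n ih =>
        rcases hsucc (n + 1) with h | h
        · exact h
        · exact (htwo n (by
            have e : n + 2 = n + 1 + 1 := rfl
            rw [e]
            linear_combination ih - h)).elim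
    · right
      intro n
      induction n with
      | zero => exact h0
      | succ n ih =>
        rcases hsucc (n + 1) with h | h
        · exact (htwo n (by
            have e : n + 2 = n + 1 + 1 := rfl
            rw [e]
            linear_combination h - ih)).elim
        · exact h
  have hper : g (s + 5) = g 0 := by
    have : x (s + 5) = x 0 := congrArg x₀ (Fin.ext (by simp))
    simp only [g, this]
  rcases hdir with h | h
  · have h1 : ∀ n : ℕ, g n = g 0 + n := by
      intro n
      induction n with
      | zero => simp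
      | succ n ih =>
        push_cast
        linear_combination h n + ih
    have h2 := h1 (s + 5)
    rw [hper] at h2
    rw [← ZMod.natCast_eq_zero_iff]
    linear_combination -h2
  · have h1 : ∀ n : ℕ, g n = g 0 - n := by
      intro n
      induction n with
      | zero => simp
      | succ n ih =>
        push_cast
        linear_combination -h n + ih
    have h2 := h1 (s + 5)
    rw [hper] at h2
    rw [← ZMod.natCast_eq_zero_iff]
    linear_combination h2

/-- The antichain property. -/
lemma eq_of_embedding {s t : ℕ} (φ : F s ↪g F t) : s = t := by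
  have h1 := Nat.le_of_dvd (by omega) (dvd_of_embedding φ)
  have h2 := Fintype.card_le_of_injective φ φ.injective
  rw [card_V, card_V] at h2
  have h3 : 2 ^ (s + 5) ≤ 2 ^ (t + 5) := by
    have : 0 < 2 ^ (s + 5) := by positivity
    have : 0 < 2 ^ (t + 5) := by positivity
    omega
  have h4 := (Nat.pow_le_pow_iff_right (by norm_num : 1 < 2)).1 h3
  omega

/-- Vertices with the same neighbours are exactly the vertices of the same class. -/
lemma twins_iff {t : ℕ} {α : Type} (cls : α → Fin (t + 5)) (hcls : Function.Surjective cls)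
    (x y : α) : (∀ z, (blow t cls).Adj x z ↔ (blow t cls).Adj y z) ↔ cls x = cls y := by
  constructor
  · intro h
    have h4 : ((4 : ℕ) : ZMod (t + 5)) ≠ 0 := small_ne_zero t 4 (by omega) (by omega)
    push_cast at h4
    have hval : ∀ a : ZMod (t + 5), ∃ z : α, ((cls z : ℕ) : ZMod (t + 5)) = a := by
      intro a
      obtain ⟨z, hz⟩ := hcls ⟨a.val, ZMod.val_lt a⟩
      exact ⟨z, by rw [hz]; exact ZMod.natCast_zmod_val a⟩
    have hinj : ((cls x : ℕ) : ZMod (t + 5)) = ((cls y : ℕ) : ZMod (t + 5)) → cls x = cls y := by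
      intro h
      rw [ZMod.natCast_eq_natCast_iff'] at h
      rw [Nat.mod_eq_of_lt (cls x).2, Nat.mod_eq_of_lt (cls y).2] at h
      exact Fin.ext h
    apply hinj
    obtain ⟨z, hz⟩ := hval (((cls x : ℕ) : ZMod (t + 5)) + 1)
    obtain ⟨z', hz'⟩ := hval (((cls x : ℕ) : ZMod (t + 5)) - 1)
    have h1 := (h z).1 (Or.inr (by rw [hz]; ring))
    have h2 := (h z').1 (Or.inl (by rw [hz']; ring))
    simp only [blow] at h1 h2
    rw [hz] at h1
    rw [hz'] at h2
    rcases h1 with h1 | h1
    · rcases h2 with h2 | h2
      · linear_combination -h2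
      · exact (h4 (by linear_combination -h1 - h2)).elim
    · linear_combination h1
  · intro h z
    simp only [blow, h]

/-- The labelled copies of `F t` on `Fin n`. -/
def Copies (t n : ℕ) : Set (SimpleGraph (Fin n)) := {G | Nonempty (F t ≃g G)}

lemma odd_copies (t : ℕ) : Odd (Nat.card (Copies t (2 ^ (t + 5) - 1))) := by
  classical
  set n := 2 ^ (t + 5) - 1 with hn
  have hodd := odd_card_fibres (t + 5) (Fin n) (by rw [Fintype.card_fin])
  rw [← Nat.card_eq_fintype_card] at hodd
  have hfib : ∀ f : {f : Fin n → Fin (t + 5) //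
      ∀ i, (univ.filter fun x => f x = i).card = 2 ^ i.1}, Nonempty (F t ≃g blow t f.1) := by
    rintro ⟨f, hf⟩
    have he : ∀ i : Fin (t + 5), Nonempty (Fin (2 ^ i.1) ≃ {x // f x = i}) := by
      intro i
      refine ⟨(Fintype.equivFinOfCardEq ?_).symm⟩
      rw [Fintype.card_subtype]
      exact hf i
    let e : (Σ i : Fin (t + 5), Fin (2 ^ i.1)) ≃ Fin n :=
      (Equiv.sigmaCongrRight fun i => (he i).some).trans (Equiv.sigmaFiberEquiv f)
    have hcls : ∀ v, f (e v) = v.1 := by
      rintro ⟨i, a⟩
      exact ((he i).some a).2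
    refine ⟨⟨e, ?_⟩⟩
    intro v w
    simp only [F, blow, hcls]
  have hsurj : ∀ f : {f : Fin n → Fin (t + 5) //
      ∀ i, (univ.filter fun x => f x = i).card = 2 ^ i.1}, Function.Surjective f.1 := by
    rintro ⟨f, hf⟩ i
    have : 0 < (univ.filter fun x => f x = i).card := by rw [hf]; positivity
    obtain ⟨x, hx⟩ := Finset.card_pos.1 this
    exact ⟨x, (mem_filter.1 hx).2⟩
  have hbij : Function.Bijective (fun f : {f : Fin n → Fin (t + 5) //
      ∀ i, (univ.filter fun x => f x = i).card = 2 ^ i.1} =>
      (⟨blow t f.1, hfib f⟩ : Copies t n)) := by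
    constructor
    · intro f f' h
      have h1 : blow t f.1 = blow t f'.1 := congrArg Subtype.val h
      apply Subtype.ext
      funext x
      have h2 : (univ.filter fun y => f.1 y = f.1 x) = (univ.filter fun y => f'.1 y = f'.1 x) := by
        ext y
        simp only [mem_filter, mem_univ, true_and]
        rw [← twins_iff f.1 (hsurj f), ← twins_iff f'.1 (hsurj f'), h1]
      have h3 := congrArg Finset.card h2
      rw [f.2, f'.2] at h3
      exact Fin.ext (Nat.pow_right_injective le_rfl h3)
    · rintro ⟨G, ⟨φ⟩⟩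
      have hcard : ∀ i, (univ.filter fun x => (φ.symm x).1 = i).card = 2 ^ i.1 := by
        intro i
        have h1 : (univ.filter fun x => (φ.symm x).1 = i).card =
            (univ : Finset (Fin (2 ^ i.1))).card := by
          symm
          refine Finset.card_bij (fun a _ => φ ⟨i, a⟩) ?_ ?_ ?_
          · intro a _
            simp
          · intro a _ b _ h
            have := φ.injective h
            simpa using this
          · intro x hx
            simp only [mem_filter, mem_univ, true_and] at hx
            subst hx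
            exact ⟨(φ.symm x).2, mem_univ _, by simp⟩
        rw [h1, Finset.card_univ, Fintype.card_fin]
      refine ⟨⟨fun x => (φ.symm x).1, hcard⟩, ?_⟩
      apply Subtype.ext
      ext x y
      have h1 : (F t).Adj (φ.symm x) (φ.symm y) ↔ G.Adj x y := φ.symm.map_adj_iff
      exact h1
  rwa [Nat.card_congr (Equiv.ofBijective _ hbij)] at hodd

/-- Graphs on `Fin n` without induced copies of `F t`, `t ∈ S`. -/
def Free (S : Set ℕ) (n : ℕ) : Set (SimpleGraph (Fin n)) :=
  {G | ∀ t ∈ S, IsEmpty (F t ↪g G)}

lemma card_free (S S' : Set ℕ) (t : ℕ) (hS : t ∉ S) (hS' : t ∈ S')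
    (h : ∀ s < t, s ∈ S ↔ s ∈ S') :
    Nat.card (Free S (2 ^ (t + 5) - 1)) =
      Nat.card (Free S' (2 ^ (t + 5) - 1)) + Nat.card (Copies t (2 ^ (t + 5) - 1)) := by
  classical
  set n := 2 ^ (t + 5) - 1 with hn
  have hbig : ∀ s, t < s → ∀ G : SimpleGraph (Fin n), IsEmpty (F s ↪g G) := by
    intro s hs G
    refine ⟨fun φ => ?_⟩
    have h2 := Fintype.card_le_of_injective φ φ.injective
    rw [card_V, Fintype.card_fin, hn] at h2
    have h3 : 2 ^ (t + 5) < 2 ^ (s + 5) := Nat.pow_lt_pow_right (by norm_num) (by omega)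
    have : 0 < 2 ^ (t + 5) := by positivity
    omega
  have hunion : Free S n = Free S' n ∪ Copies t n := by
    ext G
    constructor
    · intro hG
      by_cases hG' : IsEmpty (F t ↪g G)
      · left
        intro s hs
        rcases lt_trichotomy s t with hst | hst | hst
        · exact hG s ((h s hst).2 hs)
        · rw [hst]; exact hG'
        · exact hbig s hst G
      · right
        rw [not_isEmpty_iff] at hG'
        obtain ⟨φ⟩ := hG'
        have hb : Function.Bijective φ := by
          rw [Fintype.bijective_iff_injective_and_card]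
          exact ⟨φ.injective, by rw [card_V, Fintype.card_fin]⟩
        exact ⟨⟨Equiv.ofBijective φ hb, φ.map_adj_iff⟩⟩
    · rintro (hG | ⟨⟨ψ⟩⟩) s hs
      · rcases lt_trichotomy s t with hst | hst | hst
        · exact hG s ((h s hst).1 hs)
        · exact (hS (hst ▸ hs)).elim
        · exact hbig s hst G
      · refine ⟨fun φ => ?_⟩
        have : s = t := eq_of_embedding (φ.trans ψ.symm.toEmbedding)
        exact hS (this ▸ hs)
  have hdisj : Disjoint (Free S' n) (Copies t n) := by
    rw [Set.disjoint_left]
    rintro G hG ⟨ψ⟩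
    exact (hG t hS').false ψ.toEmbedding
  have h1 : (Free S n).ncard = (Free S' n).ncard + (Copies t n).ncard := by
    rw [hunion, Set.ncard_union_eq hdisj (Set.toFinite _) (Set.toFinite _)]
  exact h1

/-- Different sets of forbidden graphs give different parities. -/
lemma parity_injective : Function.Injective (fun (S : Set ℕ) (n : ℕ) =>
    ((Nat.card (Free S n) : ℕ) : ZMod 2)) := by
  intro S S' hSS
  by_contra hne
  have hex : ∃ t, ¬ (t ∈ S ↔ t ∈ S') := by
    by_contra hcon
    push Not at hcon
    exact hne (Set.ext hcon)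
  classical
  have ht := Nat.find_spec hex
  have hmin : ∀ s < Nat.find hex, s ∈ S ↔ s ∈ S' := fun s hs => not_not.1 (Nat.find_min hex hs)
  set t := Nat.find hex
  have hpar := congrFun hSS (2 ^ (t + 5) - 1)
  simp only at hpar
  have hodd := odd_copies t
  have hz : ∀ c : ℕ, Odd c → ((c : ℕ) : ZMod 2) = 1 := fun c hc => by
    have := (ZMod.natCast_eq_one_iff_odd).2 hc
    exact this
  by_cases h1 : t ∈ S
  · have h2 : t ∉ S' := fun h2 => ht ⟨fun _ => h2, fun _ => h1⟩
    rw [card_free S' S t h2 h1 (fun s hs => (hmin s hs).symm)] at hpar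
    push_cast at hpar
    rw [hz _ hodd] at hpar
    exact one_ne_zero (α := ZMod 2) (by linear_combination -hpar)
  · have h2 : t ∈ S' := by
      by_contra h2
      exact ht ⟨fun h => (h1 h).elim, fun h => (h2 h).elim⟩
    rw [card_free S S' t h1 h2 hmin] at hpar
    push_cast at hpar
    rw [hz _ hodd] at hpar
    exact one_ne_zero (α := ZMod 2) (by linear_combination hpar)

end Pool.Agent.H76.Specker
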