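import Mathlib
import Pool.Agent.H76.Specker.Defs
import Pool.Agent.H76.Specker.Graphs

/-!
Hereditary classes of graphs as classes of structures for a vocabulary with a binary symbol.
-/

set_option autoImplicit false

open Finset CategoryTheory FirstOrder

namespace Pool.Agent.H76.Specker

section

variable {L : FirstOrder.Language.{0, 0}} [L.IsRelational]

/-- The structure in which `R` is interpreted by the adjacency relation of `G` and all the other
relation symbols are interpreted by the empty relation. -/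
def ofGraph (R : L.Relations 2) {M : Type} (G : SimpleGraph M) : L.Structure M where
  funMap := fun f => isEmptyElim f
  RelMap := fun {k} Q x => ∃ h : k = 2, h ▸ Q = R ∧ G.Adj (x ⟨0, by omega⟩) (x ⟨1, by omega⟩)

lemma ofGraph_rel (R : L.Relations 2) {M : Type} (G : SimpleGraph M) (a b : M) :
    (ofGraph R G).RelMap R ![a, b] ↔ G.Adj a b := by
  constructor
  · rintro ⟨_, _, h⟩; exact h
  · intro h; exact ⟨rfl, rfl, h⟩

lemma ofGraph_injective (R : L.Relations 2) (M : Type) :
    Function.Injective (fun G : SimpleGraph M => ofGraph R G) := by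
  intro G G' h
  ext a b
  rw [← ofGraph_rel R G, ← ofGraph_rel R G']
  simp only at h
  rw [h]

lemma structure_ext {M : Type} (A B : L.Structure M)
    (h : ∀ (k : ℕ) (Q : L.Relations k) (x : Fin k → M), A.RelMap Q x ↔ B.RelMap Q x) : A = B := by
  obtain ⟨fA, rA⟩ := A
  obtain ⟨fB, rB⟩ := B
  have h1 : @fA = @fB := by
    funext n f
    exact isEmptyElim f
  have h2 : @rA = @rB := by
    funext k Q x
    exact propext (h k Q x)
  subst h1
  subst h2
  rfl

/-- The class of structures that come from finite graphs without induced `F t`, `t ∈ S`. -/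
def cls (R : L.Relations 2) (S : Set ℕ) : Set (Bundled.{0} L.Structure) :=
  {M | Finite M ∧ ∃ G : SimpleGraph M, M.str = ofGraph R G ∧ ∀ t ∈ S, IsEmpty (F t ↪g G)}

lemma cls_of_embedding (R : L.Relations 2) (S : Set ℕ) (M N : Bundled.{0} L.Structure)
    (hM : M ∈ cls R S) (g : N ↪[L] M) : N ∈ cls R S := by
  obtain ⟨hfin, G, hG, hfree⟩ := hM
  have : Finite N := Finite.of_injective g g.injective
  refine ⟨this, G.comap g, ?_, ?_⟩
  · apply structure_ext
    intro k Q x
    have h1 : M.str.RelMap Q (g ∘ x) ↔ N.str.RelMap Q x := g.map_rel Q x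
    rw [← h1, hG]
    rfl
  · intro t ht
    refine ⟨fun φ => (hfree t ht).false ?_⟩
    exact φ.trans (SimpleGraph.Embedding.comap ⟨g, g.injective⟩ G)

lemma cls_closed (R : L.Relations 2) (S : Set ℕ) : SubstructureClosed L (cls R S) := by
  refine ⟨fun M hM => hM.1, ?_, ?_⟩
  · rintro M hM N ⟨e⟩
    exact cls_of_embedding R S M N hM e.symm.toEmbedding
  · intro M hM T
    exact cls_of_embedding R S M ⟨T, inferInstance⟩ hM T.subtype

lemma specker_cls (R : L.Relations 2) (S : Set ℕ) (n : ℕ) :
    specker L (cls R S) n = Nat.card (Free S n) := by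
  symm
  apply Nat.card_congr
  refine Equiv.ofBijective (fun G => ⟨ofGraph R G.1, ?_⟩) ⟨?_, ?_⟩
  · exact ⟨inferInstance, G.1, rfl, G.2⟩
  · intro G G' h
    exact Subtype.ext (ofGraph_injective R _ (congrArg Subtype.val h))
  · rintro ⟨A, hA⟩
    obtain ⟨_, G, hG, hfree⟩ := hA
    exact ⟨⟨G, hfree⟩, Subtype.ext hG.symm⟩

/-- Some hereditary class of graphs has a Specker function that is not MC-finite. -/
theorem exists_not_mcFinite (R : L.Relations 2) :
    ∃ K : Set (Bundled.{0} L.Structure), SubstructureClosed L K ∧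
      ¬ MCFinite (fun n => (specker L K n : ℤ)) := by
  by_contra hcon
  push Not at hcon
  let Φ : Set ℕ → (ℕ → ZMod 2) := fun S n => ((Nat.card (Free S n) : ℕ) : ZMod 2)
  have hΦ : ∀ S, Φ S ∈ {u : ℕ → ZMod 2 | ∃ r p : ℕ, 0 < p ∧ ∀ n ≥ r, u (n + p) = u n} := by
    intro S
    obtain ⟨r, p, hp, h⟩ := (hcon (cls R S) (cls_closed R S)).periodic 2 (by norm_num)
    refine ⟨r, p, hp, fun n hn => ?_⟩
    have := h n hn
    simp only [specker_cls] at this
    simpa [Φ] using this
  have hcount : Countable (Set ℕ) := by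
    have h1 := countable_periodic (α := ZMod 2)
    have : Countable {u : ℕ → ZMod 2 | ∃ r p : ℕ, 0 < p ∧ ∀ n ≥ r, u (n + p) = u n} :=
      h1.to_subtype
    exact Function.Injective.countable (f := fun S => (⟨Φ S, hΦ S⟩ :
      {u : ℕ → ZMod 2 | ∃ r p : ℕ, 0 < p ∧ ∀ n ≥ r, u (n + p) = u n}))
      (fun S S' h => parity_injective (congrArg Subtype.val h))
  obtain ⟨f, hf⟩ := exists_surjective_nat (Set ℕ)
  exact Function.cantor_surjective f hf

end

end Pool.Agent.H76.Specker
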