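import Mathlib
import Pool.Agent.H76.Specker.Defs
import Pool.Agent.H76.Specker.Seq
import Pool.Agent.H76.Specker.Binary

/-!
If the vocabulary has only nullary and unary symbols, every hereditary class of finite
structures has an MC-finite Specker function.
-/

set_option autoImplicit false

open Finset CategoryTheory FirstOrder

namespace Pool.Agent.H76.Specker

section

variable {L : FirstOrder.Language.{0, 0}} [L.IsRelational]

lemma SubstructureClosed.of_embedding {K : Set (Bundled.{0} L.Structure)}
    (hK : SubstructureClosed L K) (M N : Bundled.{0} L.Structure) (hM : M ∈ K)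
    (g : N ↪[L] M) : N ∈ K := by
  have h1 := hK.2.2 M hM g.toHom.range
  exact hK.2.1 _ h1 N ⟨g.equivRange.symm⟩

/-- The structure with given truth values of the nullary symbols and given colours. -/
def mkStr {α : Type} (v : L.Relations 0 → Prop) (x : α → L.Relations 1 → Prop) :
    L.Structure α where
  funMap := fun f => isEmptyElim f
  RelMap := fun {k} Q y => match k, Q, y with
    | 0, Q, _ => v Q
    | 1, Q, y => x (y 0) Q
    | _ + 2, _, _ => False

lemma mkStr_surj (hL : ∀ n, 2 ≤ n → IsEmpty (L.Relations n)) {α : Type} (S : L.Structure α) :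
    mkStr (fun Q => S.RelMap Q Fin.elim0) (fun a Q => S.RelMap Q ![a]) = S := by
  apply structure_ext
  intro k Q y
  match k, Q, y with
  | 0, Q, y =>
    have : y = Fin.elim0 := funext fun i => i.elim0
    subst this
    exact Iff.rfl
  | 1, Q, y =>
    have : y = ![y 0] := by
      funext i
      fin_cases i
      rfl
    conv_rhs => rw [this]
    exact Iff.rfl
  | k + 2, Q, _ => exact ((hL (k + 2) (by omega)).false Q).elim

/-- Structures with only nullary and unary relations are pairs. -/
def strEquiv (hL : ∀ n, 2 ≤ n → IsEmpty (L.Relations n)) (α : Type) :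
    L.Structure α ≃ (L.Relations 0 → Prop) × (α → L.Relations 1 → Prop) where
  toFun S := (fun Q => S.RelMap Q Fin.elim0, fun a Q => S.RelMap Q ![a])
  invFun p := mkStr p.1 p.2
  left_inv S := mkStr_surj hL S
  right_inv p := rfl

/-- Colour-preserving injections are embeddings. -/
def mkEmb {α β : Type} (v : L.Relations 0 → Prop) (x : α → L.Relations 1 → Prop)
    (y : β → L.Relations 1 → Prop) (f : α ↪ β) (hf : ∀ a, y (f a) = x a) :
    @Language.Embedding L α β (mkStr v x) (mkStr v y) :=
  @Language.Embedding.mk L α β (mkStr v x) (mkStr v y) f (fun f' _ => isEmptyElim f')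
    (fun {k} Q z => by
      match k, Q, z with
      | 0, Q, z => exact Iff.rfl
      | 1, Q, z =>
        show y (f (z 0)) Q ↔ x (z 0) Q
        rw [hf]
      | _ + 2, _, _ => exact Iff.rfl)

end

section

variable {A : Type} [Fintype A] [DecidableEq A]

/-- The number of occurrences of a colour. -/
def cnt {n : ℕ} (x : Fin n → A) (a : A) : ℕ := (univ.filter fun i => x i = a).card

lemma cnt_cons {n : ℕ} (a : A) (x : Fin n → A) (b : A) :
    cnt (Fin.cons a x : Fin (n + 1) → A) b = (if a = b then 1 else 0) + cnt x b := by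
  unfold cnt
  rw [Fin.card_filter_univ_succ']
  simp only [Fin.cons_zero, Fin.cons_succ]

lemma exists_injection {m n : ℕ} (x : Fin n → A) (y : Fin m → A) (h : ∀ a, cnt x a ≤ cnt y a) :
    ∃ f : Fin n ↪ Fin m, ∀ i, y (f i) = x i := by
  have h1 : ∀ a, Nonempty ({i // x i = a} ↪ {j // y j = a}) := by
    intro a
    apply Function.Embedding.nonempty_of_card_le
    rw [Fintype.card_subtype, Fintype.card_subtype]
    exact h a
  let g : (Σ a, {i // x i = a}) ↪ (Σ a, {j // y j = a}) :=
    Function.Embedding.sigmaMap (Function.Embedding.refl A) fun a => (h1 a).some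
  refine ⟨((Equiv.sigmaFiberEquiv x).symm.toEmbedding.trans g).trans
    (Equiv.sigmaFiberEquiv y).toEmbedding, ?_⟩
  intro i
  exact ((h1 (x i)).some ⟨i, rfl⟩).2

/-- A threshold for membership in a down-closed set of count vectors. -/
lemma exists_threshold (D : Set (A → ℕ)) (hD : ∀ w ∈ D, ∀ w' : A → ℕ, w' ≤ w → w' ∈ D) :
    ∃ N : ℕ, ∀ N' ≥ N, ∀ w : A → ℕ, w ∈ D ↔ (fun a => min (w a) N') ∈ D := by
  by_contra hcon
  push Not at hcon
  have hbad : ∀ N : ℕ, ∃ N' ≥ N, ∃ w : A → ℕ, w ∉ D ∧ (fun a => min (w a) N') ∈ D := by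
    intro N
    obtain ⟨N', hN', w, hw⟩ := hcon N
    refine ⟨N', hN', w, ?_⟩
    rcases hw with ⟨h1, h2⟩ | ⟨h1, h2⟩
    · exact (h2 (hD w h1 _ fun a => min_le_left _ _)).elim
    · exact ⟨h1, h2⟩
  choose N' hN' w hw1 hw2 using hbad
  obtain ⟨g, hg⟩ := (wellQuasiOrdered_le (α := A → ℕ)).exists_monotone_subseq w
  -- all coordinates of the first vector are bounded
  let M : ℕ := univ.sup fun a => w (g 0) a
  have hM : ∀ a, w (g 0) a ≤ M := fun a =>
    Finset.le_sup (f := fun a => w (g 0) a) (Finset.mem_univ a)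
  have hgM : M ≤ g M := g.strictMono.le_apply
  refine hw1 (g 0) (hD _ (hw2 (g M)) _ ?_)
  intro a
  refine le_min (hg 0 M (Nat.zero_le _) a) ?_
  exact (hM a).trans (hgM.trans (hN' (g M)))

/-- The number of words with prescribed truncated count vectors, started from the vector `q`. -/
noncomputable def wcount (D : Set (A → ℕ)) (N n : ℕ) (q : A → ℕ) : ℕ :=
  Nat.card {x : Fin n → A // (fun a => min (q a + cnt x a) N) ∈ D}

lemma wcount_succ (D : Set (A → ℕ)) (N n : ℕ) (q : A → ℕ) :
    wcount D N (n + 1) q =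
      ∑ a, wcount D N n (fun b => min (q b + if a = b then 1 else 0) N) := by
  classical
  unfold wcount
  have e : {x : Fin (n + 1) → A // (fun a => min (q a + cnt x a) N) ∈ D} ≃
      Σ a, {x : Fin n → A // (fun b =>
        min (min (q b + if a = b then 1 else 0) N + cnt x b) N) ∈ D} := by
    refine ((Fin.consEquiv fun _ => A).symm.subtypeEquiv
      (p := fun x => (fun a => min (q a + cnt x a) N) ∈ D)
      (q := fun p => (fun b => min (min (q b + if p.1 = b then 1 else 0) N + cnt p.2 b) N) ∈ D)
      ?_).trans (Equiv.subtypeProdEquivSigmaSubtype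
        (fun a (x : Fin n → A) => (fun b =>
          min (min (q b + if a = b then 1 else 0) N + cnt x b) N) ∈ D))
    intro x
    have hx : x = Fin.cons (x 0) (Fin.tail x) := (Fin.cons_self_tail x).symm
    have h : (fun a => min (q a + cnt x a) N) = (fun b =>
        min (min (q b + if x 0 = b then 1 else 0) N + cnt (Fin.tail x) b) N) := by
      funext b
      conv_lhs => rw [hx]
      rw [cnt_cons]
      omega
    rw [h]
    rfl
  rw [Nat.card_congr e, Nat.card_sigma]

end

section

variable {L : FirstOrder.Language.{0, 0}} [L.IsRelational]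

/-- For vocabularies without symbols of arity at least two, all Specker functions of
hereditary classes are MC-finite. -/
theorem mcFinite_of_unary [Finite (Σ n, L.Relations n)]
    (hL : ∀ n, 2 ≤ n → IsEmpty (L.Relations n)) (K : Set (Bundled.{0} L.Structure))
    (hK : SubstructureClosed L K) : MCFinite (fun n => (specker L K n : ℤ)) := by
  classical
  have : Finite (L.Relations 0) :=
    Finite.of_injective (fun Q => (⟨0, Q⟩ : Σ n, L.Relations n)) (fun Q Q' h => by simpa using h)
  have : Finite (L.Relations 1) :=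
    Finite.of_injective (fun Q => (⟨1, Q⟩ : Σ n, L.Relations n)) (fun Q Q' h => by simpa using h)
  have : Fintype (L.Relations 0 → Prop) := Fintype.ofFinite _
  have : Fintype (L.Relations 1 → Prop) := Fintype.ofFinite _
  let V := L.Relations 0 → Prop
  let A := L.Relations 1 → Prop
  let D : V → Set (A → ℕ) := fun v => {w | ∃ (n : ℕ) (x : Fin n → A), w ≤ cnt x ∧
    (⟨Fin n, mkStr v x⟩ : Bundled.{0} L.Structure) ∈ K}
  have hmem : ∀ (v : V) (n : ℕ) (x : Fin n → A),
      (⟨Fin n, mkStr v x⟩ : Bundled.{0} L.Structure) ∈ K ↔ cnt x ∈ D v := by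
    intro v n x
    constructor
    · intro h
      exact ⟨n, x, le_rfl, h⟩
    · rintro ⟨m, y, hxy, hy⟩
      obtain ⟨f, hf⟩ := exists_injection x y hxy
      exact hK.of_embedding ⟨Fin m, mkStr v y⟩ ⟨Fin n, mkStr v x⟩ hy (mkEmb v x y f hf)
  have hdown : ∀ v, ∀ w ∈ D v, ∀ w' : A → ℕ, w' ≤ w → w' ∈ D v := by
    rintro v w ⟨n, x, hx1, hx2⟩ w' hw'
    exact ⟨n, x, hw'.trans hx1, hx2⟩
  choose N₀ hN₀ using fun v => exists_threshold (D v) (hdown v)
  let N : ℕ := univ.sup N₀
  have hN : ∀ v, ∀ w : A → ℕ, w ∈ D v ↔ (fun a => min (w a) N) ∈ D v := fun v =>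
    hN₀ v N (Finset.le_sup (f := N₀) (Finset.mem_univ v))
  -- the Specker function is a sum of the word counts
  have hsp : ∀ n, specker L K n = ∑ v, wcount (D v) N n (fun _ => 0) := by
    intro n
    unfold specker wcount
    have e : {S : L.Structure (Fin n) // (⟨Fin n, S⟩ : Bundled.{0} L.Structure) ∈ K} ≃
        Σ v : V, {x : Fin n → A // (fun a => min (0 + cnt x a) N) ∈ D v} := by
      refine ((strEquiv hL (Fin n)).subtypeEquiv
        (p := fun S => (⟨Fin n, S⟩ : Bundled.{0} L.Structure) ∈ K)
        (q := fun p => (fun a => min (0 + cnt p.2 a) N) ∈ D p.1) ?_).trans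
        (Equiv.subtypeProdEquivSigmaSubtype
          (fun (v : V) (x : Fin n → A) => (fun a => min (0 + cnt x a) N) ∈ D v))
      intro S
      have h1 := hmem ((strEquiv hL (Fin n)) S).1 n ((strEquiv hL (Fin n)) S).2
      have h2 : mkStr ((strEquiv hL (Fin n)) S).1 ((strEquiv hL (Fin n)) S).2 = S :=
        (strEquiv hL (Fin n)).left_inv S
      rw [h2, hN] at h1
      simpa only [Nat.zero_add] using h1
    rw [Nat.card_congr e, Nat.card_sigma]
  apply mcFinite_of_periodic
  intro m hm
  have : NeZero m := ⟨by omega⟩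
  -- the finite vector of all word counts modulo `m`
  let u : ℕ → (V × (A → Fin (N + 1)) → ZMod m) := fun n p =>
    ((wcount (D p.1) N n (fun a => (p.2 a : ℕ)) : ℕ) : ZMod m)
  let δ : (A → Fin (N + 1)) → A → (A → Fin (N + 1)) := fun q a b =>
    ⟨min ((q b : ℕ) + if a = b then 1 else 0) N, by omega⟩
  let T : (V × (A → Fin (N + 1)) → ZMod m) → (V × (A → Fin (N + 1)) → ZMod m) :=
    fun w p => ∑ a, w (p.1, δ p.2 a)
  have hT : ∀ n ≥ 0, u (n + 1) = T (u n) := by
    intro n _
    funext p
    simp only [u, T, δ]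
    rw [wcount_succ]
    push_cast
    rfl
  obtain ⟨r, p, hp, h⟩ := orbit_periodic' u 0 T hT
  refine ⟨r, p, hp, fun n hn => ?_⟩
  have h1 : ∀ n, ((specker L K n : ℤ) : ZMod m) = ∑ v : V, u n (v, fun _ => 0) := by
    intro n
    rw [hsp]
    push_cast
    rfl
  rw [h1, h1, h n hn]

end

end Pool.Agent.H76.Specker
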